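import Pool.Agent.N127.PB.Root

set_option autoImplicit false

/-! # The strong monodromy conjecture for ideals of forms in three variables: pencils

`I = (f_j)` is an ideal of `ℂ[x₀, x₁, x₂]` generated by forms of the same degree `d`. The pole
`s₀ = -3/d` of the topological zeta function comes from the blow-up of the origin. If the Jacobian
determinants of all triples of the `f_j` vanish then the `f_j` are composed with a pencil of plane
curves. This file proves that `-3/d` is a root of the Bernstein-Sato polynomial of `I` for large
classes of such ideals, see `RootCond`.

`RootCond` (in `Pool.Agent.N127.PB.CondDefs`) contains the linear systems `L` which contain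
`h G(P, Q)` and `h G'(P, Q)` for a pencil `P, Q` of curves of degree `e ≥ 3` with transversal base
points and an arbitrary form `h` (with a restriction for `e = 2`), the systems which contain `h P`
and `h Q`, where `P` and `Q` do not depend on `x₀` and the general line through `(1 : 0 : 0)` meets
`h = 0` in at least three other points (with a restriction in two other points), and the systems
which contain `h (P, Q) ^ k` under weak conditions.

The proof of `b(-3/d) = 0` (`root_of_EN`): let `α = -3/d` and suppose that `b(α) ≠ 0`. The functional
equation gives polynomials `V_l` in `x` and `y` with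
`b(α) F ^ α = ∑_l ∂_{x_l} (V_l F ^ (α - N))` for `F = ∑ y_j f_j` (`stmA`, `stmAI`). For two elements
`h P`, `h Q` of the linear system, a residue at the zero of `P + y Q` (as a polynomial in `y`) gives
a rational function `g` with `{g} + α g {h} / h = const ≠ 0`, where
`{a} = det (∇P, ∇Q, ∇a)` (`pair`). For pencils with transversal base points, the orders of the
numerator of `g` at the base points contradict its degree (`RPlus.no_sol_plus`); for pencils of
lines, `g` is a polynomial in `x₀` whose degree gives a contradiction (`stmLines`). -/

namespace Pool.Agent.Results.MP_ee8c61_ag.ConePencils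

open MvPolynomial Pool.Agent.W574.CN Pool.Agent.W574.SM Pool.Agent.N127.PB

/-- Let `f_j` be forms of the same degree `d > 0` in three variables, let `b` be a polynomial which
satisfies a functional equation of the `f_j` (in particular the Bernstein-Sato polynomial of the
ideal `I = (f_j)`), and let `Z` be the topological zeta function of `I`. Then every pole `s₀` of
`Z` is a root of `b`, provided that `s₀ ≠ -3/d`, or that three of the `f_j` have a nonzero Jacobian
determinant (are algebraically independent), or that the linear system which is spanned by the
`f_j` satisfies one of the conditions `RootCond`. -/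
theorem result {ι : Type} [Fintype ι] (f : ι → MvPolynomial (Fin 3) ℂ) (d : ℕ) (hd : 0 < d)
    (hf : ∀ j, (f j).IsHomogeneous d) (b : Polynomial ℂ) (hb : IsFunctionalEq f b)
    (Z : RatFunc ℂ) (hZ : ConeZeta f d Z) (s₀ : ℂ) (hs₀ : Z.denom.eval s₀ = 0)
    (h : s₀ ≠ -3 / d ∨ (∃ e : Fin 3 → ι, (Matrix.of fun s t => pderiv s (f (e t))).det ≠ 0) ∨
      RootCond (Submodule.span ℂ (Set.range f)) d) :
    b.eval s₀ = 0 := by
  classical
  by_cases h3 : s₀ = -3 / d
  · rcases h with h | h | h
    · exact absurd h3 h
    · exact cone_main f d hd hf b hb Z hZ s₀ hs₀ (Or.inr h)
    · rw [h3]
      exact root_ideal f d hd hf b hb h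
  · exact cone_main f d hd hf b hb Z hZ s₀ hs₀ (Or.inl h3)

end Pool.Agent.Results.MP_ee8c61_ag.ConePencils
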