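import Pool.Agent.N103.SCl

set_option autoImplicit false

/-!
# The strong monodromy conjecture for ideals built from the polynomials `h (f₀ + ∑ y_j f_j) ^ a`

We prove the strong monodromy conjecture for the topological zeta functions of the ideals `I` in the
class `𝓘` below: every pole `s₀` of `Z_I` is a root of the Bernstein-Sato polynomial of `I`.

The building blocks are the polynomials `h(x₁, x₂) (f₀(x₁, x₂) + ∑ y_j f_j(x₁, x₂)) ^ a` with
arbitrary polynomials `h`, `f₀`, `f_j` and `a ≥ 1` (`FF h f a`): all polynomials of degree at most one
in all but two variables, their powers, and the products with polynomials in the two variables.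

Let `𝓘` and `𝓗` be the least classes of ideals and of hypersurfaces with the following properties.

* `𝓘` contains the principal ideals `(h (f₀ + ∑ y_j f_j) ^ a)`, and the following ideals for which the
  conjecture was known (`BaseAt`): the powers `(x ^ m)`; all non-zero ideals of `ℂ[x, y]`; the ideals of
  `ℂ[x₀, x₁, x₂]` generated by forms of the same degree, three of which are algebraically independent;
  the ideals generated by forms of the same degree without a common zero outside the origin; it
  contains the principal ideals `(h)` and `(h ^ k)` with `h` in `𝓗`; and `𝓘` is closed under sums and
  products in disjoint sets of variables.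
* `𝓗` contains the `h (f₀ + ∑ y_j f_j) ^ a` whose zeta function has at most a simple pole at `-1`, and all
  plane curves (`PlaneHyp`); for `(f_j)` in `𝓘` and `g` in `𝓗` it contains `∑ y_j f_j(x)` and
  `∑ y_j f_j(x) + g(z)`; for `h ∏_t (f_{t, j})_j ^ a_t` in `𝓘` it contains
  `h(x) ∏_t (∑_j y_{t, j} f_{t, j}(x)) ^ a_t`; and `𝓗` is closed under products in disjoint sets of
  variables and under dropping variables which do not occur.

For example, `𝓘` contains the ideals `(F_1, …, F_r)` and `F_0 · (F_1, …, F_r)`, where the `F_i` are
polynomials of degree at most one in all but two of their variables, in disjoint sets of variables.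

The zeta function of `F = h (f₀ + ∑ y_j f_j) ^ a` is described by `LinZeta`, `PointZeta`, `GermZeta`
(in `Pool.Agent.N103.LDefs`, `Pool.Agent.N103.ZDefs`); the other building blocks and the rules for
the zeta functions are described in the classes `Basic` and `TPw`. The functional equations
`IsFunctionalEq` are those of Budur, Mustata and Saito.

The proof: for the new building blocks, `linZeta_pole`: every pole is a root of `b_F` (if `b(s₀) ≠ 0`
for the candidate pole `s₀` of an exceptional curve `E` of a resolution `X'` of `h` and of the ideal
`(f₀, f_j)` in the plane, the functional equation of `F`, pulled back to the neighbourhood of `E × {0}`,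
gives a rational solution of a differential equation of first order on `E`, so that at most two
points of `E` are special, and the sum of the contributions of `E` is regular at `s₀`; see
`Pool.Agent.N103`). The induction for the operations is `tp_closure`: the poles are sums of poles,
the roots of the `b`-functions are sums of roots.
-/

namespace Pool.Agent.Results.MP_ee8c61_ag.DegreeOneIdeals

open MvPolynomial Pool.Agent.W574.SM Pool.Agent.W574.RO
  Pool.Agent.Y229 Pool.Agent.Y230.TH Pool.Agent.R852.TP Pool.Agent.N103

/-- **The strong monodromy conjecture for the ideals of the class generated by the polynomials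
`h(x₁, x₂) (f₀(x₁, x₂) + ∑ y_j f_j(x₁, x₂)) ^ a`.** Let `TPw (LinAt BaseAt) (LinHyp PlaneHyp) c A Z` be
the classes of ideals (`c = false`) and of hypersurfaces (`c = true`) with their topological
zeta functions `Z` which are obtained from these polynomials, from the ideals in `BaseAt` and from
the plane curves by sums and products in disjoint sets of variables, powers,
`h(x) ∏_t (∑_j y_{t, j} f_{t, j}(x)) ^ a_t`, and `∑ y_j f_j(x) + g(z)`. Let the ideal `I` with the
generators `A.f` be in the class, with the topological zeta function `Z`, and let `b` satisfy a
functional equation of the generators, in particular let `b` be the Bernstein-Sato polynomial of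
`I`. Then every pole `s₀` of `Z` is a root of `b`. -/
theorem result (A : Fam) (Z : RatFunc ℂ) (h : TPw (LinAt BaseAt) (LinHyp PlaneHyp) false A Z)
    (b : Polynomial ℂ) (hb : IsFunctionalEq A.f b) (s₀ : ℂ) (hs : Z.denom.eval s₀ = 0) :
    b.eval s₀ = 0 :=
  base_strong_ideal A Z h b hb s₀ hs

end Pool.Agent.Results.MP_ee8c61_ag.DegreeOneIdeals
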