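import Pool.Agent.N101.CB.IMain

set_option autoImplicit false

/-! # Strong monodromy conjecture for ideals: ideals generated by quadrics suffice

For every ideal `(f_1, …, f_r)` of `ℂ[x_1, …, x_n]` we construct an ideal `(F_1, …, F_(r + κ))` in
`n + κ` variables, generated by polynomials of degree at most two all of whose monomials are squarefree
(`Quad F`), such that the conjectures Q1 and Q2 for `(F)` imply Q1 and Q2 for `(f)`. So the conjectures hold
for all ideals if they hold for the ideals generated by such quadrics.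

Construction. Let `c x ^ (a + b)` be a monomial of `f_j`. The ideal generated by
`f_j + c x ^ b (w - x ^ a) = (f_j - c x ^ (a + b)) + c x ^ b w`, the other `f_i`, and `w - x ^ a`, is the image of
the ideal `(f_1, …, f_r, w)` by the automorphism `w ↦ w - x ^ a`. Finitely many steps of this kind (`κ` of
them) lead to quadrics.

Zeta functions. Let `J = (f_1, …, f_r, w)`. Since `ord J = min (ord I, ord w)`, the motivic zeta function
of `J` is an explicit function of the one of `I`, also for its representations by the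
`F_(N, ν) = (𝕃 - 1) 𝕃 ^ (-ν) T ^ N / (1 - 𝕃 ^ (-ν) T ^ N)`. For the topological zeta functions this gives
`(s + κ) (Z_F(s) - 1) = s (Z_f(s + κ) - 1)`.

Bernstein-Sato polynomials. A functional equation of `(f_j)` with `b(s)` gives one of `(f_j), w` with
`b(s + 1)`, by a direct computation. The independence of the generators and coordinates is obtained from
both directions of Mustata's theorem (`∑ y_j f_j`, where a change of generators is a linear change of the
`y_j`). -/

namespace Pool.Agent.Results.MP_ee8c61_ag.QuadraticIdeals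

open MvPolynomial Pool.Agent.W428.MOT Pool.Agent.N101.CB
open Pool.Agent.W574.SM (IsFunctionalEq)

/-- `R` is a topological zeta function of the ideal generated by the `f_j`, for the ring homomorphism
`χ : 𝓜 → ℂ` with `χ(𝕃) = 1`, for instance the Euler characteristic: the motivic zeta function
`ztI f = ∑_N [X_N] 𝕃 ^ (-n N) T ^ N`, `X_N` the variety of the `N`-jets along which the order of the
ideal is `N`, is a polynomial `Q` in the `F_(N, ν) = (𝕃 - 1) 𝕃 ^ (-ν) T ^ N / (1 - 𝕃 ^ (-ν) T ^ N)`,
`N, ν ≥ 1`, with coefficients in `𝓜`, and `R = (χ Q)(1 / (N s + ν))`. By the formula with a log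
resolution the usual topological zeta function has this property. -/
def IsTopZeta (χ : MK ℂ →+* ℂ) {n r : ℕ} (f : Fin r → MvPolynomial (Fin n) ℂ)
    (R : RatFunc ℂ) : Prop := IsTop χ (ztI f Set.univ) R

/-- Q1: every pole of a topological zeta function of the ideal is a root of every polynomial `b` which
satisfies the functional equation of the `f_j`, in particular of the Bernstein-Sato polynomial. -/
def Q1 (χ : MK ℂ →+* ℂ) {n r : ℕ} (f : Fin r → MvPolynomial (Fin n) ℂ) : Prop :=
  ∀ R : RatFunc ℂ, IsTopZeta χ f R → ∀ s : ℂ, ¬ Reg R s →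
    ∀ b : Polynomial ℂ, IsFunctionalEq f b → b.eval s = 0

/-- Q2: the product of `b` and of the topological zeta function is a polynomial. -/
def Q2 (χ : MK ℂ →+* ℂ) {n r : ℕ} (f : Fin r → MvPolynomial (Fin n) ℂ) : Prop :=
  ∀ R : RatFunc ℂ, IsTopZeta χ f R → ∀ b : Polynomial ℂ, IsFunctionalEq f b →
    ∃ p : Polynomial ℂ, algebraMap (Polynomial ℂ) (RatFunc ℂ) b * R =
      algebraMap (Polynomial ℂ) (RatFunc ℂ) p

/-- The `f_j` generate a non-zero proper ideal. -/
def NonzeroProper {n r : ℕ} (f : Fin r → MvPolynomial (Fin n) ℂ) : Prop :=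
  (∃ j, f j ≠ 0) ∧ Ideal.span (Set.range f) ≠ ⊤

/-- **Ideals generated by quadrics suffice.** Let `χ : 𝓜 → ℂ` be a ring homomorphism with `χ(𝕃) = 1`.

First part: for all `f_1, …, f_r` in `n` variables which generate a non-zero proper ideal there are `κ`
and polynomials `F_1, …, F_(r + κ)` in `n + κ` variables, of degree at most two and with squarefree
monomials (`Quad F`), which generate a non-zero proper ideal, such that
(1) for every topological zeta function `R` of `(f)` there is a topological zeta function `R'` of `(F)`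
with `(s + κ) (R'(s) - 1) = s (R(s + κ) - 1)`, and if `s` is a pole of `R` then `s - κ` is a pole of `R'`;
(2) a functional equation of the `f_j` with `b(s)` gives one of the `F_j` with `b(s + κ)`;
(3) Q1 and Q2 for `(F)` imply Q1 and Q2 for `(f)`.

Second and third part: Q1 (respectively Q2) holds for all non-zero proper ideals, in any number of
variables, if and only if it holds for those generated by quadrics with `Quad f`. -/
theorem result (χ : MK ℂ →+* ℂ) (hχ : χ ((Lu ℂ : (MK ℂ)ˣ) : MK ℂ) = 1) :
    (∀ {n r : ℕ} (f : Fin r → MvPolynomial (Fin n) ℂ), NonzeroProper f →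
      ∃ (κ m t : ℕ) (F : Fin t → MvPolynomial (Fin m) ℂ), m = n + κ ∧ t = r + κ ∧ Quad F ∧
        NonzeroProper F ∧
        (∀ R : RatFunc ℂ, IsTopZeta χ f R → ∃ R' : RatFunc ℂ, IsTopZeta χ F R' ∧
          (RatFunc.X + (κ : RatFunc ℂ)) * (R' - 1) = RatFunc.X * (shR (κ : ℂ) R - 1) ∧
          ∀ s : ℂ, ¬ Reg R s → ¬ Reg R' (s - κ)) ∧
        (∀ b : Polynomial ℂ, IsFunctionalEq f b →
          IsFunctionalEq F (b.comp (Polynomial.X + Polynomial.C (κ : ℂ)))) ∧
        (Q1 χ F → Q1 χ f) ∧ (Q2 χ F → Q2 χ f)) ∧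
    ((∀ (n r : ℕ) (f : Fin r → MvPolynomial (Fin n) ℂ), NonzeroProper f → Q1 χ f) ↔
      ∀ (n r : ℕ) (f : Fin r → MvPolynomial (Fin n) ℂ), Quad f → NonzeroProper f → Q1 χ f) ∧
    ((∀ (n r : ℕ) (f : Fin r → MvPolynomial (Fin n) ℂ), NonzeroProper f → Q2 χ f) ↔
      ∀ (n r : ℕ) (f : Fin r → MvPolynomial (Fin n) ℂ), Quad f → NonzeroProper f → Q2 χ f) := by
  refine ⟨fun {n r} f hf => ?_, ⟨fun h n r f _ => h n r f, fun h n r f hf => ?_⟩,
    ⟨fun h n r f _ => h n r f, fun h n r f hf => ?_⟩⟩
  · obtain ⟨κ, m, t, F, hm, ht, hF, hl⟩ := IM.exists_quadrics f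
    exact ⟨κ, m, t, F, hm, ht, hF, ⟨hl.ne hf.1, hl.proper hf.2⟩, hl.top χ hχ, hl.b,
      IM.iq1_of hχ hl, IM.iq2_of hχ hl⟩
  · obtain ⟨κ, m, t, F, -, -, hF, hl⟩ := IM.exists_quadrics f
    exact IM.iq1_of hχ hl (h m t F hF ⟨hl.ne hf.1, hl.proper hf.2⟩)
  · obtain ⟨κ, m, t, F, -, -, hF, hl⟩ := IM.exists_quadrics f
    exact IM.iq2_of hχ hl (h m t F hF ⟨hl.ne hf.1, hl.proper hf.2⟩)

end Pool.Agent.Results.MP_ee8c61_ag.QuadraticIdeals
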